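import Mathlib
import Pool.Agent.H29.GDist

namespace Pool.Agent.Results.MP_70a435_co.Order

open Finset SimpleGraph

/-- `f` is `k,d`-proper: no shortest path of length at most `d` contains `k` vertices of one
colour. -/
def Proper (k d : ℕ) {V : Type} (G : SimpleGraph V) {c : ℕ} (f : V → Fin c) : Prop :=
  ∀ (u v : V) (p : G.Walk u v), p.length = G.dist u v → p.length ≤ d →
    ∀ a, {x | x ∈ p.support ∧ f x = a}.ncard < k

/-- The `k,d`-chromatic number. -/
noncomputable def chi (k d : ℕ) {V : Type} (G : SimpleGraph V) : ℕ :=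
  sInf {c | ∃ f : V → Fin c, Proper k d G f}

/-- The `k,d`-chromatic numbers of the finite nonempty graphs of maximum degree at most `Δ`. -/
def values (k d Δ : ℕ) : Set ℕ :=
  {c | ∃ (V : Type) (_ : Fintype V) (_ : Nonempty V) (G : SimpleGraph V),
    (∀ v, (G.neighborSet v).ncard ≤ Δ) ∧ chi k d G = c}

/-- `F_{k,d}(Δ)`. -/
noncomputable def F (k d Δ : ℕ) : ℕ := sSup (values k d Δ)

theorem greedy {V : Type} [Fintype V] (R : V → V → Prop) (hR : ∀ u v, R u v → R v u) (c : ℕ)
    (hc : 0 < c) (h : ∀ v, {u | u ≠ v ∧ R v u}.ncard < c) :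
    ∃ f : V → Fin c, ∀ u v, u ≠ v → R u v → f u ≠ f v := by
  classical
  have key : ∀ s : Finset V, ∃ f : V → Fin c, ∀ u ∈ s, ∀ v ∈ s, u ≠ v → R u v → f u ≠ f v := by
    intro s
    induction s using Finset.induction_on with
    | empty => exact ⟨fun _ => ⟨0, hc⟩, by simp⟩
    | insert w s hw ih =>
      obtain ⟨f, hf⟩ := ih
      obtain ⟨a, ha⟩ : ∃ a, a ∉ f '' {u | u ≠ w ∧ R w u} := by
        by_contra hcon
        push Not at hcon
        have h1 := Set.ncard_image_le (f := f) (s := {u | u ≠ w ∧ R w u})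
        rw [Set.eq_univ_of_forall hcon, Set.ncard_univ, Nat.card_fin] at h1
        exact absurd (h w) (not_lt.mpr h1)
      refine ⟨Function.update f w a, fun u hu v hv huv hr => ?_⟩
      by_cases h1 : u = w
      · subst h1
        rw [Function.update_self, Function.update_of_ne huv.symm]
        exact fun h => ha ⟨v, ⟨huv.symm, hr⟩, h.symm⟩
      · by_cases h2 : v = w
        · subst h2
          rw [Function.update_self, Function.update_of_ne huv]
          exact fun h => ha ⟨u, ⟨huv, hR _ _ hr⟩, h⟩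
        · rw [Function.update_of_ne h1, Function.update_of_ne h2]
          exact hf u ((Finset.mem_insert.mp hu).resolve_left h1) v
            ((Finset.mem_insert.mp hv).resolve_left h2) huv hr
  obtain ⟨f, hf⟩ := key univ
  exact ⟨f, fun u v => hf u (Finset.mem_univ _) v (Finset.mem_univ _)⟩

theorem ball {V : Type} [Fintype V] (G : SimpleGraph V) (Δ : ℕ)
    (hG : ∀ v, (G.neighborSet v).ncard ≤ Δ) (m : ℕ) : ∀ v, ∃ B : Finset V,
      B.card ≤ (Δ + 1) ^ m ∧ ∀ u (p : G.Walk u v), p.length ≤ m → u ∈ B := by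
  classical
  induction m with
  | zero =>
    intro v
    refine ⟨{v}, by simp, fun u p hp => ?_⟩
    simpa using p.eq_of_length_eq_zero (by omega)
  | succ m ih =>
    intro v
    obtain ⟨B, hB, hB'⟩ := ih v
    refine ⟨B.biUnion fun w => insert w (G.neighborFinset w), ?_, fun u p hp => ?_⟩
    · refine (Finset.card_biUnion_le_card_mul _ _ (Δ + 1) fun w _ => ?_).trans ?_
      · refine (Finset.card_insert_le _ _).trans (Nat.succ_le_succ ?_)
        have := hG w
        rwa [← SimpleGraph.coe_neighborFinset, Set.ncard_coe_finset] at this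
      · rw [pow_succ]; exact Nat.mul_le_mul_right _ hB
    · cases p with
      | nil => exact Finset.mem_biUnion.mpr ⟨v, hB' v .nil (by simp), by simp⟩
      | cons h q =>
        refine Finset.mem_biUnion.mpr ⟨_, hB' _ q (by simpa using hp), ?_⟩
        simp [h.symm]

theorem upper (k d : ℕ) (hk : 2 ≤ k) {V : Type} [Fintype V] (G : SimpleGraph V) (Δ : ℕ)
    (hG : ∀ v, (G.neighborSet v).ncard ≤ Δ) :
    ∃ f : V → Fin ((Δ + 1) ^ (d / (k - 1))), Proper k d G f := by
  classical
  set m := d / (k - 1) with hm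
  obtain ⟨f, hf⟩ := greedy (fun u v => ∃ p : G.Walk u v, p.length ≤ m)
    (fun u v ⟨p, hp⟩ => ⟨p.reverse, by simpa using hp⟩) ((Δ + 1) ^ m) (by positivity) (by
      intro v
      obtain ⟨B, hB, hB'⟩ := ball G Δ hG m v
      have hv : v ∈ B := hB' v .nil (by simp)
      have h1 : {u | u ≠ v ∧ ∃ p : G.Walk v u, p.length ≤ m} ⊆ (B.erase v : Finset V) := by
        rintro u ⟨h1, p, hp⟩
        exact Finset.mem_coe.mpr (Finset.mem_erase.mpr ⟨h1, hB' u p.reverse (by simpa using hp)⟩)
      have h2 := Set.ncard_le_ncard h1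
      rw [Set.ncard_coe_finset, Finset.card_erase_of_mem hv] at h2
      have := Finset.card_pos.mpr ⟨v, hv⟩
      omega)
  refine ⟨f, fun u v p _ hp a => ?_⟩
  have hidx : ∀ x ∈ p.support, ∃ i, p.getVert i = x ∧ i ≤ p.length := fun x hx =>
    Walk.mem_support_iff_exists_getVert.mp hx
  choose! idx h1 h2 using hidx
  have hw : ∀ i j, i ≤ j → j ≤ i + m →
      ∃ q : G.Walk (p.getVert i) (p.getVert j), q.length ≤ m := by
    intro i j hij hj
    refine ⟨((p.drop i).take (j - i)).copy rfl (by
      rw [Walk.drop_getVert]; congr 1; omega), ?_⟩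
    rw [Walk.length_copy, Walk.take_length]
    exact inf_le_left.trans (by omega)
  have hd : d < (k - 1) * (m + 1) := Nat.lt_mul_div_succ d (by omega)
  clear_value m
  have := Set.ncard_le_ncard_of_injOn (s := {x | x ∈ p.support ∧ f x = a})
    (t := (range (k - 1) : Finset ℕ)) (fun x => idx x / (m + 1)) (fun x hx => by
      rw [Finset.mem_coe, Finset.mem_range, Nat.div_lt_iff_lt_mul (Nat.add_one_pos m)]
      have := h2 x hx.1
      omega) (fun x hx y hy hxy => by
      by_contra hne
      have e1 := Nat.div_add_mod (idx x) (m + 1)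
      have e2 := Nat.div_add_mod (idx y) (m + 1)
      have e3 := Nat.mod_lt (idx x) (Nat.add_one_pos m)
      have e4 := Nat.mod_lt (idx y) (Nat.add_one_pos m)
      have hxy' : idx x / (m + 1) = idx y / (m + 1) := hxy
      rw [hxy'] at e1
      rcases le_total (idx x) (idx y) with h | h
      · have := hw _ _ h (by omega)
        rw [h1 x hx.1, h1 y hy.1] at this
        exact hf x y hne this (hx.2.trans hy.2.symm)
      · have := hw _ _ h (by omega)
        rw [h1 x hx.1, h1 y hy.1] at this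
        exact hf y x (Ne.symm hne) this (hy.2.trans hx.2.symm))
  rw [Set.ncard_coe_finset, Finset.card_range] at this
  omega

/-- the Hamming graph. -/
def Ham (ι : Type) [Fintype ι] [DecidableEq ι] (q : ℕ) : SimpleGraph (ι → Fin q) where
  Adj x y := hammingDist x y = 1
  symm := ⟨fun x y h => by rwa [hammingDist_comm]⟩
  loopless := ⟨fun x h => by simp at h⟩

theorem ham_h1 {ι : Type} [Fintype ι] [DecidableEq ι] {q : ℕ} (a b c : ι → Fin q)
    (h : (Ham ι q).Adj b c) : hammingDist a c ≤ hammingDist a b + 1 := by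
  have := hammingDist_triangle a b c
  have h' : hammingDist b c = 1 := h
  omega

theorem ham_h2 {ι : Type} [Fintype ι] [DecidableEq ι] {q : ℕ} (a b : ι → Fin q) (h : b ≠ a) :
    ∃ c, (Ham ι q).Adj c b ∧ hammingDist a c + 1 = hammingDist a b := by
  obtain ⟨i, hi⟩ := Function.ne_iff.mp h
  refine ⟨Function.update b i (a i), ?_, ?_⟩
  · refine Finset.card_eq_one.mpr ⟨i, ?_⟩
    ext j
    by_cases hj : j = i
    · subst hj; simpa using hi.symm
    · simp [hj]
  · unfold hammingDist
    rw [← Finset.card_insert_of_notMem (a := i) (by simp)]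
    congr 1
    ext j
    by_cases hj : j = i
    · subst hj; simpa using hi.symm
    · simp [hj]

theorem ham_deg {ι : Type} [Fintype ι] [DecidableEq ι] {q : ℕ} (x : ι → Fin q) :
    ((Ham ι q).neighborSet x).ncard ≤ Fintype.card ι * (q - 1) := by
  have h1 : (Ham ι q).neighborSet x ⊆ (univ.biUnion fun i =>
      (univ.erase (x i)).image fun a => Function.update x i a : Finset _) := by
    intro y hy
    obtain ⟨i, hi⟩ := Finset.card_eq_one.mp (show hammingDist x y = 1 from hy)
    have hj : ∀ j, x j ≠ y j ↔ j = i := fun j => by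
      have := Finset.ext_iff.mp hi j
      simpa using this
    simp only [Finset.coe_biUnion, Finset.coe_univ, Set.mem_univ, Set.iUnion_true, Set.mem_iUnion,
      Finset.mem_coe, Finset.mem_image, Finset.mem_erase, Finset.mem_univ, and_true]
    refine ⟨i, y i, ((hj i).mpr rfl).symm, funext fun j => ?_⟩
    by_cases h : j = i
    · subst h; simp
    · rw [Function.update_of_ne h]
      exact not_not.mp fun h' => h ((hj j).mp h')
  refine (Set.ncard_le_ncard h1).trans ?_
  rw [Set.ncard_coe_finset]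
  refine (Finset.card_biUnion_le_card_mul _ _ (q - 1) fun i _ => ?_).trans (by simp)
  exact Finset.card_image_le.trans (by simp)

theorem chain (K m q : ℕ) (S : Finset (Fin K × Fin m → Fin q)) : ∀ t ≤ K,
    ∃ St : Finset (Fin K × Fin m → Fin q), St ⊆ S ∧ S.card ≤ St.card + t * (q ^ m) ^ (K - 1) ∧
      ∀ y ∈ St, ∃ (x : Fin K × Fin m → Fin q) (p : (Ham _ q).Walk x y)
        (T : Finset (Fin K × Fin m → Fin q)), p.length = hammingDist x y ∧
        (∀ i : Fin K × Fin m, t ≤ i.1.val → x i = y i) ∧ T.card = t + 1 ∧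
        ∀ z ∈ T, z ∈ S ∧ z ∈ p.support ∧ hammingDist x z ≤ hammingDist x y := by
  classical
  intro t
  induction t with
  | zero =>
    intro _
    exact ⟨S, le_rfl, by simp, fun y hy => ⟨y, .nil, {y}, by simp, fun _ _ => rfl, by simp,
      by simpa using hy⟩⟩
  | succ t ih =>
    intro ht
    obtain ⟨St, h1, h2, h3⟩ := ih (by omega)
    let P : (Fin K × Fin m → Fin q) → Prop := fun y =>
      ∃ y' ∈ St, y' ≠ y ∧ ∀ i : Fin K × Fin m, i.1.val ≠ t → y' i = y i
    refine ⟨St.filter P, (Finset.filter_subset _ _).trans h1, ?_, fun y hy => ?_⟩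
    · have e1 := Finset.card_filter_add_card_filter_not (s := St) P
      have e2 : (St.filter fun y => ¬ P y).card ≤ (q ^ m) ^ (K - 1) := by
        have := Finset.card_le_card_of_injOn (s := St.filter fun y => ¬ P y)
          (t := (univ : Finset ({j : Fin K // j ≠ ⟨t, by omega⟩} → Fin m → Fin q)))
          (fun y j l => y (j.1, l)) (fun _ _ => Finset.mem_univ _) (by
            intro y hy y' hy' h
            by_contra hne
            refine (Finset.mem_filter.mp hy').2 ⟨y, (Finset.mem_filter.mp hy).1, hne, ?_⟩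
            rintro ⟨j, l⟩ hj
            exact congrFun (congrFun h ⟨j, fun h => hj (congrArg Fin.val h)⟩) l)
        simpa [Fintype.card_subtype_compl] using this
      rw [add_mul]; omega
    · obtain ⟨hy1, y', hy', hne, hag⟩ := Finset.mem_filter.mp hy
      obtain ⟨x, p, T, k1, k2, k3, k4⟩ := h3 y' hy'
      obtain ⟨p', hp'⟩ := Pool.Agent.H29.GDist.walk_of_cert (Ham _ q) hammingDist
        hammingDist_self ham_h2 y' y
      have hadd : hammingDist x y = hammingDist x y' + hammingDist y' y := by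
        unfold hammingDist
        rw [← Finset.card_union_of_disjoint]
        · congr 1
          ext i
          simp only [Finset.mem_filter, Finset.mem_univ, true_and, Finset.mem_union]
          by_cases hi : i.1.val = t
          · rw [k2 i hi.ge]; simp
          · rw [hag i hi]; simp
        · rw [Finset.disjoint_filter]
          intro i _ h1 h2
          by_cases hi : i.1.val = t
          · exact h1 (k2 i hi.ge)
          · exact h2 (hag i hi)
      have hpos : 0 < hammingDist y' y := hammingDist_pos.mpr hne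
      refine ⟨x, p.append p', insert y T, by rw [Walk.length_append, k1, hp', hadd],
        fun i hi => (k2 i (by omega)).trans (hag i (by omega)), ?_, fun z hz => ?_⟩
      · rw [Finset.card_insert_of_notMem fun h => by have := (k4 y h).2.2; omega, k3]
      · rcases Finset.mem_insert.mp hz with rfl | hz
        · exact ⟨h1 hy1, Walk.end_mem_support _, le_rfl⟩
        · exact ⟨(k4 z hz).1, (Walk.mem_support_append_iff _ _).mpr (Or.inl (k4 z hz).2.1),
            by have := (k4 z hz).2.2; omega⟩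

theorem lower (K m q d c : ℕ) (hK : 1 ≤ K) (hd : K * m ≤ d) (f : (Fin K × Fin m → Fin q) → Fin c)
    (hq : 0 < q) (hf : Proper (K + 1) d (Ham (Fin K × Fin m) q) f) : q ^ m ≤ K * c := by
  classical
  by_contra hc
  obtain ⟨a, -, ha⟩ := Finset.exists_lt_card_fiber_of_mul_lt_card_of_maps_to
    (s := univ) (t := univ) (f := f) (n := K * (q ^ m) ^ (K - 1)) (fun _ _ => Finset.mem_univ _) (by
      simp only [Finset.card_univ, Fintype.card_fin, Fintype.card_fun, Fintype.card_prod]
      obtain ⟨K', rfl⟩ : ∃ K', K = K' + 1 := ⟨K - 1, by omega⟩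
      rw [mul_comm (K' + 1) m, pow_mul, pow_succ, Nat.add_sub_cancel, ← mul_assoc, mul_comm c,
        mul_comm ((q ^ m) ^ K')]
      exact Nat.mul_lt_mul_of_pos_right (not_le.mp hc) (by positivity))
  obtain ⟨St, -, h2, h3⟩ := chain K m q (univ.filter fun x => f x = a) K le_rfl
  obtain ⟨y, hy⟩ : St.Nonempty := Finset.card_pos.mp (by omega)
  obtain ⟨x, p, T, k1, -, k3, k4⟩ := h3 y hy
  have := hf x y p (by
    rw [k1, Pool.Agent.H29.GDist.dist_eq (Ham _ q) hammingDist hammingDist_self ham_h1 ham_h2])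
    (by rw [k1]; exact hammingDist_le_card_fintype.trans (by simpa using hd)) a
  have h4 := Set.ncard_le_ncard (s := (T : Set _)) (t := {z | z ∈ p.support ∧ f z = a})
    fun z hz => ⟨(k4 z hz).2.1, (Finset.mem_filter.mp (k4 z hz).1).2⟩
  rw [Set.ncard_coe_finset] at h4
  omega

theorem bounds (k d : ℕ) (hk : 2 ≤ k) (hkd : k ≤ d + 1) (Δ : ℕ) : BddAbove (values k d Δ) ∧
    Δ ^ (d / (k - 1)) ≤ (k - 1) * d ^ (d / (k - 1)) * F k d Δ ∧
    F k d Δ ≤ (Δ + 1) ^ (d / (k - 1)) := by
  have hub : ∀ c ∈ values k d Δ, c ≤ (Δ + 1) ^ (d / (k - 1)) := by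
    rintro c ⟨V, _, _, G, hG, rfl⟩
    exact Nat.sInf_le (upper k d hk G Δ hG)
  refine ⟨⟨_, hub⟩, ?_, csSup_le' hub⟩
  obtain ⟨K, rfl⟩ : ∃ K, k = K + 1 := ⟨k - 1, by omega⟩
  simp only [Nat.add_sub_cancel]
  set m := d / K with hm
  have hm1 : 0 < m := Nat.div_pos (by omega) (by omega)
  have hKm : K * m ≤ d := Nat.mul_div_le d K
  have hD : 0 < K * m := Nat.mul_pos (by omega) hm1
  let q := Δ / (K * m) + 1
  have hdeg : ∀ v, ((Ham (Fin K × Fin m) q).neighborSet v).ncard ≤ Δ := fun v =>
    (ham_deg v).trans (by simpa [q] using Nat.mul_div_le Δ (K * m))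
  have h1 : chi (K + 1) d (Ham (Fin K × Fin m) q) ≤ F (K + 1) d Δ :=
    le_csSup ⟨_, hub⟩ ⟨_, inferInstance, inferInstance, _, hdeg, rfl⟩
  obtain ⟨f, hf⟩ : ∃ f : _ → Fin (chi (K + 1) d (Ham (Fin K × Fin m) q)),
      Proper (K + 1) d (Ham (Fin K × Fin m) q) f :=
    Nat.sInf_mem (s := {c | ∃ f : _ → Fin c, Proper (K + 1) d (Ham (Fin K × Fin m) q) f})
      ⟨_, upper (K + 1) d hk _ Δ hdeg⟩
  have h2 := lower K m q d _ (by omega) hKm f (Nat.succ_pos _) hf
  have h3 : Δ ≤ d * q := (Nat.lt_mul_div_succ Δ hD).le.trans (Nat.mul_le_mul_right _ hKm)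
  calc Δ ^ m ≤ (d * q) ^ m := Nat.pow_le_pow_left h3 m
    _ = d ^ m * q ^ m := mul_pow _ _ _
    _ ≤ d ^ m * (K * F (K + 1) d Δ) :=
      Nat.mul_le_mul_left _ (h2.trans (Nat.mul_le_mul_left _ h1))
    _ = _ := by ring

theorem result (k d : ℕ) (hk : 3 ≤ k) (hkd : k ≤ d + 1) :
    (∀ Δ, BddAbove (values k d Δ) ∧
      Δ ^ (d / (k - 1)) ≤ (k - 1) * d ^ (d / (k - 1)) * F k d Δ ∧
      F k d Δ ≤ (Δ + 1) ^ (d / (k - 1))) ∧
    Asymptotics.IsTheta Filter.atTop (fun Δ : ℕ => (F k d Δ : ℝ))
      (fun Δ : ℕ => (Δ : ℝ) ^ (d / (k - 1))) := by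
  have h := bounds k d (by omega) hkd
  refine ⟨h, ?_, ?_⟩
  · refine Asymptotics.IsBigO.of_bound (2 ^ (d / (k - 1))) ?_
    filter_upwards [Filter.eventually_ge_atTop 1] with Δ hΔ
    rw [Real.norm_natCast, norm_pow, Real.norm_natCast, ← mul_pow]
    have := (h Δ).2.2.trans (Nat.pow_le_pow_left (show Δ + 1 ≤ 2 * Δ by omega) _)
    exact_mod_cast this
  · refine Asymptotics.IsBigO.of_bound (((k - 1) * d ^ (d / (k - 1)) : ℕ) : ℝ)
      (Filter.Eventually.of_forall fun Δ => ?_)
    rw [Real.norm_natCast, norm_pow, Real.norm_natCast]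
    exact_mod_cast (h Δ).2.1

end Pool.Agent.Results.MP_70a435_co.Order
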